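import Mathlib

/-!
# PQ-GREEDY: a sequence in general position

Choose `f F ∈ S` outside all spans `≠ ⊤` of subsets of the finite set `F` (`hS` for the finite set of
these spans); `F_0 = ∅`, `F_(m+1) = F_m ∪ {f F_m}`, `X_m = f F_m`. If `W ≠ ⊤` contains infinitely many
members: by induction on `j` there are a finite `G ⊆ F_m`, `G ⊆ W`, with `j ≤ finrank (span G)`
(take a member `X_m'` in `W`, `m ≤ m'`: it is not in `span G`, as `span G ≤ W` is not `⊤`);
`j = finrank V + 1` is a contradiction.
-/

set_option autoImplicit false

namespace Pool.Agent.Helper10.PQ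

open Classical in
/-- the finite sets of the construction -/
noncomputable def greedySet {V : Type*} (f : Finset V → V) : ℕ → Finset V
  | 0 => ∅
  | m + 1 => insert (f (greedySet f m)) (greedySet f m)

theorem greedySet_mono {V : Type*} (f : Finset V → V) {m m' : ℕ} (h : m ≤ m') :
    greedySet f m ⊆ greedySet f m' := by
  classical
  induction h with
  | refl => exact Finset.Subset.refl _
  | step _ ih => exact ih.trans (Finset.subset_insert _ _)

theorem greedy {K V : Type*} [Field K] [AddCommGroup V] [Module K V] [FiniteDimensional K V]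
    (S : Set V) (hS : ∀ T : Set (Submodule K V), T.Finite → (∀ W ∈ T, W ≠ ⊤) →
      ∃ x ∈ S, ∀ W ∈ T, x ∉ W) :
    ∃ X : ℕ → V, (∀ m, X m ∈ S) ∧ ∀ W : Submodule K V, W ≠ ⊤ → {m | X m ∈ W}.Finite := by
  classical
  have h1 : ∀ F : Finset V, ∃ x ∈ S, ∀ G ∈ F.powerset,
      Submodule.span K (G : Set V) ≠ ⊤ → x ∉ Submodule.span K (G : Set V) := by
    intro F
    obtain ⟨x, hx, hx2⟩ := hS
      {W | W ≠ ⊤ ∧ W ∈ (fun G : Finset V => Submodule.span K (G : Set V)) '' F.powerset}
      ((F.powerset.finite_toSet.image _).subset fun W hW => hW.2) (fun W hW => hW.1)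
    exact ⟨x, hx, fun G hG hne => hx2 _ ⟨hne, G, hG, rfl⟩⟩
  choose f hf hf2 using h1
  refine ⟨fun m => f (greedySet f m), fun m => hf _, ?_⟩
  intro W hW
  by_contra hinf
  have hinf' : {m | f (greedySet f m) ∈ W}.Infinite := hinf
  have key : ∀ j : ℕ, ∃ (m : ℕ) (G : Finset V), G ⊆ greedySet f m ∧ (∀ v ∈ G, v ∈ W) ∧
      j ≤ Module.finrank K (Submodule.span K (G : Set V)) := by
    intro j
    induction j with
    | zero => exact ⟨0, ∅, Finset.empty_subset _, by simp, Nat.zero_le _⟩
    | succ j ih =>
      obtain ⟨m, G, hG, hGW, hj⟩ := ih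
      obtain ⟨m', hm', hmm⟩ := hinf'.exists_gt m
      have hGm : G ⊆ greedySet f m' := hG.trans (greedySet_mono f hmm.le)
      have hle : Submodule.span K (G : Set V) ≤ W := Submodule.span_le.mpr fun v hv => hGW v hv
      have hne : Submodule.span K (G : Set V) ≠ ⊤ := by
        intro h
        rw [h] at hle
        exact hW (top_le_iff.mp hle)
      have hnot := hf2 (greedySet f m') G (Finset.mem_powerset.mpr hGm) hne
      refine ⟨m' + 1, insert (f (greedySet f m')) G, ?_, ?_, ?_⟩
      · exact Finset.insert_subset_insert _ hGm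
      · intro v hv
        rcases Finset.mem_insert.mp hv with rfl | hv
        · exact hm'
        · exact hGW v hv
      · have hlt : Submodule.span K (G : Set V) <
            Submodule.span K ((insert (f (greedySet f m')) G : Finset V) : Set V) := by
          apply lt_of_le_of_ne
          · exact Submodule.span_mono (Finset.coe_subset.mpr (Finset.subset_insert _ _))
          · intro h
            apply hnot
            rw [h]
            exact Submodule.subset_span (Finset.mem_coe.mpr (Finset.mem_insert_self _ _))
        have := Submodule.finrank_lt_finrank_of_lt hlt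
        omega
  obtain ⟨m, G, -, -, hj⟩ := key (Module.finrank K V + 1)
  have := Submodule.finrank_le (Submodule.span K (G : Set V))
  omega

end Pool.Agent.Helper10.PQ
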