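import Pool.Agent.Helper10.PQ.UltraL
import Pool.Agent.Helper10.PQ.Greedy
import Pool.Agent.Helper74.PQ.Cover24
import Pool.Agent.Helper74.PQ.KeyDL
import Pool.Agent.Helper74.LN.EngN
import Pool.Agent.Helper6.QS.FinKey

/-!
# PQ-COVERL: the integral points lie on finitely many conics

`cover_zero`: otherwise `greedy` (in the space of the functions on `Sym (Fin 3) 2`, for the points
`(y^J)_J`) gives a sequence of integral points with finitely many members on each conic, which
contradicts `eng_l`. `cover24_zero`: the polynomial form for `i₀ = 0` (`reduce`); `cover24`: permute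
the variables.
-/

set_option autoImplicit false

namespace Pool.Agent.Helper10.PQ

open scoped BigOperators
open MvPolynomial
open Pool.Agent.Helper8.LG
open Pool.Agent.Helper74.PQ
open Pool.Agent.Helper6.QS (dt lf)

universe u v

/-- the quadratic form with the coefficients `s` -/
noncomputable def qpol {L : Type*} [CommRing L] (s : Sym (Fin 3) 2 → L) :
    MvPolynomial (Fin 3) L := ∑ J, s J • monX (N := 2) L J

theorem qpol_hom {L : Type*} [CommRing L] (s : Sym (Fin 3) 2 → L) :
    (qpol s).IsHomogeneous 2 := by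
  unfold qpol
  refine IsHomogeneous.sum _ _ _ fun J _ => ?_
  rw [smul_eq_C_mul]
  have h := (isHomogeneous_C (Fin 3) (s J)).mul (monX_hom (N := 2) L J)
  rwa [zero_add] at h

theorem eval_qpol {L : Type*} [CommRing L] (s : Sym (Fin 3) 2 → L) (y : Fin 3 → L) :
    eval y (qpol s) = form s y := by
  unfold qpol form
  rw [map_sum]
  refine Finset.sum_congr rfl fun J _ => ?_
  rw [smul_eval, eval_monX]

theorem coeff_monX {L : Type*} [CommRing L] (I J : Sym (Fin 3) 2) :
    coeff (Multiset.toFinsupp (I : Multiset (Fin 3))) (monX (N := 2) L J) =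
      if I = J then 1 else 0 := by
  classical
  have h1 : monX (N := 2) L J = monomial (Multiset.toFinsupp (J : Multiset (Fin 3))) 1 := by
    rw [monX, mon]
    generalize (J : Multiset (Fin 3)) = K
    induction K using Multiset.induction_on with
    | empty => simp
    | cons a K ih =>
      rw [Multiset.map_cons, Multiset.prod_cons, ih, X, monomial_mul, one_mul,
        ← Multiset.singleton_add, map_add, Multiset.toFinsupp_singleton]
  rw [h1, coeff_monomial]
  refine if_congr ?_ rfl rfl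
  constructor
  · intro h
    exact (Sym.coe_injective (Multiset.toFinsupp.injective h)).symm
  · rintro rfl
    rfl

theorem qpol_ne {L : Type*} [CommRing L] (s : Sym (Fin 3) 2 → L) (hs : s ≠ 0) : qpol s ≠ 0 := by
  classical
  intro h
  apply hs
  funext I
  have h1 := congrArg (coeff (Multiset.toFinsupp (I : Multiset (Fin 3)))) h
  unfold qpol at h1
  rw [coeff_sum, coeff_zero] at h1
  simp only [coeff_smul, coeff_monX, smul_eq_mul, mul_ite, mul_one, mul_zero] at h1
  rw [Finset.sum_ite_eq Finset.univ I] at h1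
  simpa using h1

/-- a line contains finitely many members when every conic does -/
theorem line_of_conic {L : Type*} [Field L] (X : ℕ → Fin 3 → L)
    (hcon : ∀ s : Sym (Fin 3) 2 → L, s ≠ 0 → {m | form s (X m) = 0}.Finite) (w : Fin 3 → L)
    (hw : w ≠ 0) : {m | dt w (X m) = 0}.Finite := by
  classical
  have hhom : (lf w * lf w : MvPolynomial (Fin 3) L).IsHomogeneous 2 :=
    (Pool.Agent.Helper6.QS.lf_hom w).mul (Pool.Agent.Helper6.QS.lf_hom w)
  have h1 : (lf w : MvPolynomial (Fin 3) L) ≠ 0 := by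
    intro h0
    apply hw
    funext i
    have h2 := congrArg (eval (Pi.single i (1 : L))) h0
    rw [Pool.Agent.Helper6.QS.eval_lf, map_zero, dt, Finset.sum_eq_single i, Pi.single_eq_same,
      mul_one] at h2
    · exact h2
    · intro j _ hj
      rw [Pi.single_eq_of_ne hj, mul_zero]
    · intro h3
      exact absurd (Finset.mem_univ _) h3
  have h2 : cf (N := 2) 2 (lf w * lf w : MvPolynomial (Fin 3) L) ≠ 0 := by
    intro h0
    apply mul_ne_zero h1 h1
    ext m
    rw [coeff_zero]
    by_cases hm : m.degree = 2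
    · obtain ⟨J, hJ⟩ := poly_exists_sym (N := 2) m hm
      rw [← hJ]
      exact congrFun h0 J
    · exact hhom.coeff_eq_zero hm
  refine (hcon _ h2).subset ?_
  intro m hm
  show form (cf (N := 2) 2 (lf w * lf w : MvPolynomial (Fin 3) L)) (X m) = 0
  rw [form_of_hom _ hhom, map_mul, Pool.Agent.Helper6.QS.eval_lf]
  have hm' : dt w (X m) = 0 := hm
  rw [hm', zero_mul]

theorem cover_zero {q : ℕ} (hq : q = 4) (hC : KeyC.{u} q) (hK : KeyD.{u} q) {k : Type v}
    {L : Type u} [Field k] [Field L] [CharZero L] [Algebra k L] (a : Sym (Fin 3) q → L)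
    (hind : AlgebraicIndependent k a)
    (hfin : FiniteDimensional (IntermediateField.adjoin k (Set.range a)) L)
    (D : Sym (Fin 3) q → Derivation ℤ L L) (hD : ∀ I J, D J (a I) = if I = J then 1 else 0)
    (hDk : ∀ J (c : k), D J (algebraMap k L c) = 0) (A : Subalgebra k L) (hA : A.FG) :
    ∃ T : Finset (Sym (Fin 3) 2 → L), (∀ s ∈ T, s ≠ 0) ∧ ∀ y : Fin 3 → L, y 0 = 1 →
      form a y ≠ 0 → (∀ J : Sym (Fin 3) q, mon y J / form a y ∈ A) → ∃ s ∈ T, form s y = 0 := by
  classical
  by_contra hcon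
  push Not at hcon
  set S : Set (Sym (Fin 3) 2 → L) := {v | ∃ y : Fin 3 → L, y 0 = 1 ∧ form a y ≠ 0 ∧
    (∀ J : Sym (Fin 3) q, mon y J / form a y ∈ A) ∧ v = fun J => mon y J} with hS
  -- a proper subspace is contained in a conic
  have hsub : ∀ W : Submodule L (Sym (Fin 3) 2 → L), W ≠ ⊤ →
      ∃ s : Sym (Fin 3) 2 → L, s ≠ 0 ∧ ∀ y : Fin 3 → L, (fun J => mon y J) ∈ W →
        form s y = 0 := by
    intro W hW
    obtain ⟨f, hf0, hf⟩ := Submodule.exists_le_ker_of_lt_top W (lt_top_iff_ne_top.2 hW)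
    refine ⟨fun J => f (Pi.single J 1), ?_, ?_⟩
    · intro h0
      apply hf0
      refine LinearMap.pi_ext' fun J => ?_
      ext
      exact congrFun h0 J
    · intro y hy
      have h1 : f (fun J => mon y J) = 0 := hf hy
      rw [LinearMap.pi_apply_eq_sum_univ] at h1
      rw [← h1, form]
      refine Finset.sum_congr rfl fun J _ => ?_
      rw [smul_eq_mul, mul_comm]
      congr 2
      funext I
      rw [Pi.single_apply]
      simp only [eq_comm]
  choose! t ht0 ht using hsub
  obtain ⟨Y, hY, hYfin⟩ := greedy (K := L) S (by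
    intro T hT hTne
    obtain ⟨y, hy0, hyF, hyA, hy⟩ := hcon (hT.toFinset.image t) (by
      intro s hs
      obtain ⟨W, hW, rfl⟩ := Finset.mem_image.1 hs
      exact ht0 W (hTne W (hT.mem_toFinset.1 hW)))
    refine ⟨fun J => mon y J, ⟨y, hy0, hyF, hyA, rfl⟩, fun W hW hmem => ?_⟩
    exact hy (t W) (Finset.mem_image_of_mem t (hT.mem_toFinset.2 hW)) (ht W (hTne W hW) y hmem))
  choose X hX0 hXF hXA hXY using hY
  have hconic : ∀ s : Sym (Fin 3) 2 → L, s ≠ 0 → {m | form s (X m) = 0}.Finite := by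
    intro s hs
    set W : Submodule L (Sym (Fin 3) 2 → L) :=
      LinearMap.ker (∑ J, (s J) • (LinearMap.proj J : (Sym (Fin 3) 2 → L) →ₗ[L] L)) with hW
    have hWne : W ≠ ⊤ := by
      intro htop
      apply hs
      funext J
      have h1 : (Pi.single J 1 : Sym (Fin 3) 2 → L) ∈ W := by rw [htop]; trivial
      rw [hW, LinearMap.mem_ker, LinearMap.sum_apply] at h1
      simp only [LinearMap.smul_apply, LinearMap.proj_apply, smul_eq_mul] at h1
      rw [Finset.sum_eq_single J, Pi.single_eq_same, mul_one] at h1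
      · exact h1
      · intro I _ hI
        rw [Pi.single_eq_of_ne hI, mul_zero]
      · intro h3
        exact absurd (Finset.mem_univ _) h3
    refine (hYfin W hWne).subset ?_
    intro m hm
    have hm' : form s (X m) = 0 := hm
    show Y m ∈ W
    rw [hXY m, hW, LinearMap.mem_ker, LinearMap.sum_apply]
    simp only [LinearMap.smul_apply, LinearMap.proj_apply, smul_eq_mul]
    exact hm'
  exact eng_l hq hC hK a hind hfin D hD hDk A hA X hX0 hXF hXA
    (fun w hw => line_of_conic X hconic w hw) hconic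

theorem adjoin_fg {k₀ L : Type*} [Field k₀] [Field L] [Algebra k₀ L] (k : IntermediateField k₀ L)
    (A : Subalgebra k₀ L) (hA : A.FG) : (Algebra.adjoin k (A : Set L)).FG := by
  obtain ⟨t, ht⟩ := hA
  refine ⟨t, le_antisymm ?_ ?_⟩
  · refine Algebra.adjoin_mono ?_
    rw [← ht]
    exact Algebra.subset_adjoin
  · refine Algebra.adjoin_le ?_
    rw [← ht]
    have h : Algebra.adjoin k₀ (t : Set L) ≤ (Algebra.adjoin k (t : Set L)).restrictScalars k₀ :=
      Algebra.adjoin_le Algebra.subset_adjoin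
    exact h

/-- the case `i₀ = 0` -/
theorem cover24_zero (hC : KeyC.{u} 4) (hK : KeyD.{u} 4) {k₀ : Type v} {M : Type u} [Field k₀]
    [Field M] [CharZero M] [Algebra k₀ M] (hfg : (⊤ : IntermediateField k₀ M).FG) {q : ℕ}
    (hq : q = 4) (F : MvPolynomial (Fin 3) M) (hF : F.IsHomogeneous q)
    (hcoef : ((2 + q).choose 2 : Cardinal) ≤
      Algebra.trdeg k₀ (IntermediateField.adjoin k₀ {z | ∃ J, z = coeff J F}))
    (A : Subalgebra k₀ M) (hA : A.FG) :
    ∃ D : Sym (Fin 3) q → Derivation ℤ M M,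
      (∀ I J, D J (cf (N := 2) q F I) = if I = J then 1 else 0) ∧
      ∃ T : Finset (MvPolynomial (Fin 3) M), (∀ Q ∈ T, Q.IsHomogeneous 2 ∧ Q ≠ 0) ∧
        ∀ y : Fin 3 → M, y 0 = 1 → eval y F ≠ 0 →
          (∀ J : Sym (Fin 3) q, mon y J / eval y F ∈ A) → ∃ Q ∈ T, eval y Q = 0 := by
  classical
  have e1 : ({z | ∃ J, z = coeff J F} : Set M) = {z | ∃ (_ : Fin 1) (J : Fin (2 + 1) →₀ ℕ),
      z = coeff J F} := by
    ext z
    constructor
    · intro h
      exact ⟨0, h⟩
    · rintro ⟨-, h⟩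
      exact h
  have hc : (Fintype.card (Ix (Fin (2 + 1)) fun _ : Fin 1 => q) : Cardinal) ≤ Algebra.trdeg k₀
      (IntermediateField.adjoin k₀ (Set.range fun p : Ix (Fin (2 + 1)) fun _ : Fin 1 => q =>
        cf (N := 2) q F p.2)) + (0 : ℕ) := by
    have h1 := Pool.Agent.Helper8.LV.adjoin_poly (N := 2) k₀ (fun _ : Fin 1 => q) (fun _ => F)
      (fun _ => hF)
    rw [card_Ix, ← h1, Fin.sum_univ_one, ← e1, Nat.cast_zero, add_zero]
    exact hcoef
  obtain ⟨T, k, hT, hind, hfin, D, θ, hD, hDk⟩ := reduce hfg (fun _ : Fin 1 => q)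
    (fun _ => cf (N := 2) q F) 0 hc
  have hall : ∀ p : Ix (Fin (2 + 1)) fun _ : Fin 1 => q, p ∈ T := by
    intro p
    by_contra hp
    have h1 : Fintype.card {p : Ix (Fin (2 + 1)) (fun _ : Fin 1 => q) // p ∉ T} = 0 := by omega
    rw [Fintype.card_eq_zero_iff] at h1
    exact h1.false ⟨p, hp⟩
  have hempty : IsEmpty {p : Ix (Fin (2 + 1)) (fun _ : Fin 1 => q) // p ∉ T} :=
    ⟨fun p => p.2 (hall p.1)⟩
  have hinj : Function.Injective
      (fun J : Sym (Fin (2 + 1)) q => (⟨⟨0, J⟩, hall _⟩ : T)) := by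
    intro J J' h
    have h1 := congrArg (fun p : T => p.1) h
    simp only [Sigma.mk.injEq, heq_eq_eq, true_and] at h1
    exact h1
  have hind1 := hind.comp (fun J : Sym (Fin (2 + 1)) q => (⟨⟨0, J⟩, hall _⟩ : T)) hinj
  have hfun : ((fun p : T => cf (N := 2) q F p.1.2) ∘ fun J : Sym (Fin (2 + 1)) q =>
      (⟨⟨0, J⟩, hall _⟩ : T)) = cf (N := 2) q F := rfl
  have hind' : AlgebraicIndependent k (cf (N := 2) q F) := by
    rw [← hfun]
    exact hind1
  have hrange : (Set.range fun p : T => cf (N := 2) q F p.1.2) =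
      Set.range (cf (N := 2) q F) := by
    ext z
    constructor
    · rintro ⟨p, rfl⟩
      exact ⟨p.1.2, rfl⟩
    · rintro ⟨J, rfl⟩
      exact ⟨⟨⟨0, J⟩, hall _⟩, rfl⟩
  rw [hrange] at hfin
  have hD' : ∀ I J : Sym (Fin (2 + 1)) q, D ⟨0, J⟩ (cf (N := 2) q F I) =
      if I = J then 1 else 0 := by
    intro I J
    have h1 := hD ⟨0, J⟩ ⟨0, I⟩
    rw [Fintype.sum_empty, sub_zero] at h1
    rw [h1]
    refine if_congr ?_ rfl rfl
    constructor
    · intro h
      simp only [Sigma.mk.injEq, heq_eq_eq, true_and] at h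
      exact h.symm
    · intro h
      rw [h]
  subst hq
  obtain ⟨T', hT1, hT2⟩ := cover_zero rfl hC hK (cf (N := 2) 4 F) hind' hfin
    (fun J => D ⟨0, J⟩) hD' (fun J c => hDk _ c) (Algebra.adjoin k (A : Set M)) (adjoin_fg k A hA)
  refine ⟨fun J => D ⟨0, J⟩, hD', T'.image qpol, ?_, ?_⟩
  · intro Q hQ
    obtain ⟨s, hs, rfl⟩ := Finset.mem_image.1 hQ
    exact ⟨qpol_hom s, qpol_ne s (hT1 s hs)⟩
  · intro y hy0 hyF hyA
    have hform : form (cf (N := 2) 4 F) y = eval y F := form_of_hom F hF y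
    obtain ⟨s, hs, hsy⟩ := hT2 y hy0 (by rw [hform]; exact hyF) (fun J => by
      rw [hform]
      exact Algebra.subset_adjoin (hyA J))
    exact ⟨qpol s, Finset.mem_image_of_mem _ hs, by rw [eval_qpol, hsy]⟩

/-- **The integral points lie on finitely many conics.** -/
theorem cover24_of (hC : KeyC.{u} 4) (hK : KeyD.{u} 4) :
    Pool.Agent.Helper74.PQ.Cover24.{u, v} := by
  classical
  intro k₀ M _ _ _ _ hfg q hq F hF hcoef A hA
  obtain ⟨D, hD, -⟩ := cover24_zero hC hK hfg hq F hF hcoef A hA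
  refine ⟨D, hD, fun i₀ => ?_⟩
  set e : Fin 3 → Fin 3 := fun i => Equiv.swap 0 i₀ i with he
  have hinj : Function.Injective e := (Equiv.swap 0 i₀).injective
  have hee : e ∘ e = id := by
    funext i
    exact Equiv.swap_apply_self 0 i₀ i
  have hset : ({z | ∃ J, z = coeff J F} : Set M) = {z | ∃ J, z = coeff J (rename e F)} := by
    refine Set.Subset.antisymm (Pool.Agent.Helper6.QS.finKey_coeff (N := 2) e hinj F) ?_
    have h1 := Pool.Agent.Helper6.QS.finKey_coeff (N := 2) e hinj (rename e F)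
    rw [rename_rename, hee, rename_id_apply] at h1
    exact h1
  rw [hset] at hcoef
  obtain ⟨-, -, T, hT1, hT2⟩ := cover24_zero hC hK hfg hq (rename e F)
    (hF.rename_isHomogeneous) hcoef A hA
  refine ⟨T.image (rename e), ?_, ?_⟩
  · intro Q hQ
    obtain ⟨Q', hQ', rfl⟩ := Finset.mem_image.1 hQ
    refine ⟨(hT1 Q' hQ').1.rename_isHomogeneous, fun h0 => (hT1 Q' hQ').2 ?_⟩
    exact rename_injective e hinj (by rw [h0, map_zero])
  · intro y hy hyF hyA
    have h0 : (y ∘ e) 0 = 1 := by
      change y (e 0) = 1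
      have h3 : e 0 = i₀ := Equiv.swap_apply_left 0 i₀
      rw [h3]
      exact hy
    have h1 : eval (y ∘ e) (rename e F) = eval y F := by
      rw [eval_rename, Function.comp_assoc, hee, Function.comp_id]
    obtain ⟨Q', hQ', hQy⟩ := hT2 (y ∘ e) h0 (by rw [h1]; exact hyF) (fun J => by
      rw [h1]
      have h2 : mon (y ∘ e) J = mon y (J.map e) := by
        unfold mon
        rw [Sym.coe_map, Multiset.map_map]
      rw [h2]
      exact hyA _)
    refine ⟨rename e Q', Finset.mem_image_of_mem _ hQ', ?_⟩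
    rw [eval_rename]
    exact hQy

theorem cover24 : Pool.Agent.Helper74.PQ.Cover24.{u, v} := cover24_of (keyC 4) (keyD 4)

end Pool.Agent.Helper10.PQ
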