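import Pool.Agent.Helper10.LB.CaseTwo

/-!
# PQ-MASONLINE: integral points on a bounded line which meets the curve in at least three points

Copy of `case_two` (`Helper10/LB/CaseTwo.lean`) for one form (`ι = Unit`, `d = fun _ => q`, `Z = ∅`,
`Zᶜ = univ`); there `3 ≤ h.natDegree` comes from `three_roots`, here it is the hypothesis `hr`
(`h`, `w` over the field `BF`, mapped to `Ω`).
-/

set_option autoImplicit false

namespace Pool.Agent.Helper10.PQ

open scoped BigOperators
open Polynomial Pool.Agent.Helper8.LG Pool.Agent.Helper10.LB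

theorem mason_line {k L Ω : Type*} [Field k] [Field L] [CharZero L] [Algebra k L] [Field Ω]
    {Q : (ℕ → L) →+* Ω} (hQ : IsUl Q) {T P : Type*} [Finite T] [DecidableEq T] [Finite P]
    (y : T → L) {σ : Type*} [Fintype σ] [DecidableEq σ] {q : ℕ} (hq : 0 < q) (a : Sym σ q → L)
    (D : P → Derivation ℤ L L) (hy : Dirs k y D) (A : Subalgebra k L) (hA : A.FG)
    (X : ℕ → σ → L) (hne : ∀ m, form a (X m) ≠ 0)
    (hint : ∀ m (J : Sym σ q), mon (X m) J / form a (X m) ∈ A)
    (u v : σ → Ω) (hu : ∀ l, u l ∈ BF k hQ) (hv : ∀ l, v l ∈ BF k hQ) (b b' : σ)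
    (hpi : u b * v b' - u b' * v b ≠ 0) (htop : form (fun J => Q fun _ => a J) v ≠ 0)
    (lam z : Ω) (hlam : lam ≠ 0) (hx : ∀ l, (Q fun m => X m l) = lam * (u l + z * v l))
    (hr : ∀ h : Polynomial Ω, (∀ n, h.coeff n ∈ BF k hQ) → h.Monic → h.Separable →
      h ∣ lf (fun J => Q fun _ => a J) u v → (∃ n, lf (fun J => Q fun _ => a J) u v ∣ h ^ n) →
      3 ≤ h.natDegree) :
    z ∈ BF k hQ := by
  classical
  by_contra hzF
  have hz : ¬ IsAlgebraic (BF k hQ) z := fun h => hzF (alg_bdd hQ y D hy z h)
  have : CharZero Ω := by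
    have hinj : Function.Injective (Q.comp (Pi.constRingHom ℕ L)) :=
      (Q.comp (Pi.constRingHom ℕ L)).injective
    exact charZero_of_injective_ringHom hinj
  -- the line over the field of the bounded elements
  set F := BF k hQ with hF
  set u' : σ → F := fun l => ⟨u l, hu l⟩ with hu'
  set v' : σ → F := fun l => ⟨v l, hv l⟩ with hv'
  set a' : Sym σ q → F := fun J => ⟨Q fun _ => a J, const_mem hQ _⟩ with ha'
  have hmap : (lf a' u' v').map F.subtype = lf (fun J => Q fun _ => a J) u v := by
    rw [lf_map]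
    rfl
  have hev0 : ∀ p : F[X], (p.map F.subtype).eval z = 0 → p = 0 := by
    intro p hp
    by_contra h0
    refine hz ⟨p, h0, ?_⟩
    rw [Polynomial.aeval_def, Polynomial.eval₂_eq_eval_map]
    exact hp
  have hU0 : lf a' u' v' ≠ 0 := by
    intro h0
    apply htop
    rw [← lf_coeff_top (fun J => Q fun _ => a J) u v, ← hmap, h0, Polynomial.map_zero,
      Polynomial.coeff_zero]
  obtain ⟨h, w, hmon, hsep, hw, n, hn⟩ := exists_sqfree _ hU0
  have hgmap : (h.map F.subtype) * (w.map F.subtype) = lf (fun J => Q fun _ => a J) u v := by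
    rw [← Polynomial.map_mul, hw, hmap]
  have hr3 : 3 ≤ (h.map F.subtype).natDegree := by
    refine hr (h.map F.subtype) (fun n => ?_) (hmon.map _) hsep.map ?_ ⟨n, ?_⟩
    · rw [Polynomial.coeff_map]
      exact (h.coeff n).2
    · exact ⟨_, hgmap.symm⟩
    · rw [← hmap, ← Polynomial.map_pow]
      exact Polynomial.map_dvd F.subtype hn
  rw [Polynomial.natDegree_map] at hr3
  -- the points
  have hX : ∀ m, Pt (ι := Unit) (d := fun _ => q) (fun _ => a) ∅ A.toSubring (X m) := by
    intro m
    refine ⟨fun i hi => absurd hi (Finset.notMem_empty _), fun _ _ => hne m, fun _ _ J => ?_⟩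
    have h1 : mon (X m) J / form a (X m) ∈ A.toSubring := hint m J
    exact isIntegral_algebraMap (R := A.toSubring) (x := ⟨_, h1⟩)
  -- the polynomials q
  have hq' : ∀ p : P, ∃ q : F[X], q.natDegree < h.natDegree ∧
      h.map F.subtype ∣ mapD (ulDer Q hQ.surj hQ.ker (D p)) (h.map F.subtype) +
        derivative (h.map F.subtype) * q.map F.subtype := by
    intro p
    obtain ⟨e, he⟩ := exists_lift_sub F (mapD (ulDer Q hQ.surj hQ.ker (D p)) (h.map F.subtype))
      (fun n => by
        rw [coeff_mapD, Polynomial.coeff_map]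
        exact der_mem hQ (D p) (hy.ker p) _ (h.coeff n).2)
    obtain ⟨q, hq1, hq2⟩ := exists_q h e hmon hsep (by omega)
    refine ⟨q, hq1, ?_⟩
    rw [← he, Polynomial.derivative_map, ← Polynomial.map_mul, ← Polynomial.map_add]
    exact Polynomial.map_dvd _ hq2
  choose r hr1 hr2 using hq'
  have hDz : ∀ p, ulDer Q hQ.surj hQ.ker (D p) z = ((r p).map F.subtype).eval z := by
    intro p
    refine (mason_bdd (ι := Unit) (d := fun _ => q) hQ y D hy (fun _ => a) ∅ A hA X hX u v hu hv
      b b' hpi (fun _ _ => htop) lam z hlam hx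
      (h.map F.subtype) (w.map F.subtype) (fun n => ?_) (hmon.map _)
      (by rw [Polynomial.natDegree_map]; exact hr3) hsep.map
      (by rw [hgmap]; simp) p ((r p).map F.subtype)
      (fun n => ?_) (by rw [Polynomial.natDegree_map, Polynomial.natDegree_map]; exact hr1 p)
      (hr2 p)).resolve_left hzF
    · rw [Polynomial.coeff_map]
      exact (h.coeff n).2
    · rw [Polynomial.coeff_map]
      exact ((r p).coeff n).2
  have hdeg : ∀ p, ((r p).map F.subtype).natDegree ≤ 2 := by
    intro p
    by_contra hlt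
    exact hzF (tail_bdd hQ y D hy p ((r p).map F.subtype)
      (fun n => by rw [Polynomial.coeff_map]; exact ((r p).coeff n).2) (by omega) z (hDz p))
  refine hz (riccati F (fun p => ulDer Q hQ.surj hQ.ker (D p))
    (fun c hc => const_Ω hQ y D hy c hc) (h.map F.subtype)
    (fun n => by rw [Polynomial.coeff_map]; exact (h.coeff n).2) hsep.map
    (by rw [Polynomial.natDegree_map]; exact hr3) (fun p => (r p).map F.subtype) hdeg hr2 z hDz ?_)
  intro h0
  exact hmon.ne_zero (hev0 h h0)

end Pool.Agent.Helper10.PQ
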