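import Pool.Agent.Helper10.PQ.UlLFrame
import Pool.Agent.Helper10.PQ.MasonLine
import Pool.Agent.Helper74.PQ.LnParam
import Pool.Agent.Helper74.PQ.BadLine
import Pool.Agent.Helper6.QS.Der

/-!
# PQ-STAGEONEL: infinitely many of the points are bounded

`ultra_const`: elements of the ultrapower algebraic over `L` are in `L`. `stage_one_l`: by `KeyC`
there is a rational (bounded) line through the point `x` of the ultrapower. If it meets the curve in
at least three points, `mason_line` gives that `x` is bounded. Otherwise the line is algebraic over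
`L` (`bad_line`, `exists_der`), so it is a line over `L`, which contains only finitely many of the
points.
-/

set_option autoImplicit false

namespace Pool.Agent.Helper10.PQ

open scoped BigOperators
open Pool.Agent.Helper8.LG Pool.Agent.Helper10.LB
open Pool.Agent.Helper74.PQ
open Pool.Agent.Helper6.QS (dt)

universe u v

/-- elements of the ultrapower algebraic over `L` are in `L` -/
theorem ultra_const {L Ω : Type*} [Field L] [Field Ω] [Algebra L Ω]
    {Q : (ℕ → L) →+* Ω} (hQ : IsUl Q) (halg : ∀ b : L, algebraMap L Ω b = Q fun _ => b) (z : Ω)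
    (hz : IsAlgebraic L z) : ∃ b : L, algebraMap L Ω b = z := by
  classical
  obtain ⟨p, hp0, hp⟩ := hz
  obtain ⟨f, rfl⟩ := hQ.surj z
  have h1 : ∀ᶠ m' in (Filter.hyperfilter ℕ : Filter ℕ), p.eval (f m') = 0 := by
    rw [← hQ.ker (fun m' => p.eval (f m')), ul_Q_eval Q]
    have h2 : (Q.comp (Pi.constRingHom ℕ L)) = algebraMap L Ω := by
      ext b
      exact (halg b).symm
    rw [h2]
    exact hp
  have h2 : ∃ b ∈ (p.roots.toFinset : Set L),
      ∀ᶠ m' in (Filter.hyperfilter ℕ : Filter ℕ), f m' = b := by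
    refine (Ultrafilter.eventually_exists_mem_iff p.roots.toFinset.finite_toSet).mp ?_
    filter_upwards [h1] with m' hm'
    refine ⟨f m', ?_, rfl⟩
    rw [Finset.mem_coe, Multiset.mem_toFinset, Polynomial.mem_roots hp0]
    exact hm'
  obtain ⟨b, -, hb⟩ := h2
  refine ⟨b, ?_⟩
  rw [halg, ← sub_eq_zero, ← map_sub, hQ.ker]
  filter_upwards [hb] with m' hm'
  show b - f m' = 0
  rw [hm', sub_self]

/-- a bounded point -/
theorem bdd_inf {k : Type v} {L : Type u} [Field k] [Field L] [Algebra k L] {Ω : Type u} [Field Ω]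
    {Q : (ℕ → L) →+* Ω} (hQ : IsUl Q) (X : ℕ → Fin 3 → L)
    (hx : ∀ l, (Q fun m => X m l) ∈ BF k hQ) :
    ∃ V : Submodule k L, FiniteDimensional k V ∧
      {m : ℕ | ∃ G : L, G ≠ 0 ∧ ∀ l, G * X m l ∈ V}.Infinite := by
  obtain ⟨V, hV, n, d, hn, hd, hd0, h⟩ := bset_common hQ (fun l => Q fun m => X m l)
    (fun l => (mem_BF k hQ _).1 (hx l))
  refine ⟨V, hV, ?_⟩
  have h3 : ∀ᶠ m in (Filter.hyperfilter ℕ : Filter ℕ), ∀ l, d m * X m l = n l m := by
    rw [Filter.eventually_all]
    intro l
    have h4 : Q (fun m => X m l * d m) = Q (n l) := by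
      rw [← h l, ← map_mul]
      rfl
    rw [ul_eq Q hQ.ker] at h4
    filter_upwards [h4] with m hm
    rw [← hm, mul_comm]
  intro hfin'
  refine hfin'.notMem_hyperfilter ?_
  refine Filter.mem_of_superset h3 ?_
  intro m hm
  exact ⟨d m, hd0 m, fun l => by rw [hm l]; exact hn l m⟩

theorem stage_one_l {q : ℕ} (hq : q = 4) (hC : KeyC.{u} q) {k : Type v} {L : Type u} [Field k]
    [Field L] [CharZero L] [Algebra k L] (a : Sym (Fin 3) q → L) (hind : AlgebraicIndependent k a)
    (hfin : FiniteDimensional (IntermediateField.adjoin k (Set.range a)) L)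
    (D : Sym (Fin 3) q → Derivation ℤ L L) (hD : ∀ I J, D J (a I) = if I = J then 1 else 0)
    (hDk : ∀ J (c : k), D J (algebraMap k L c) = 0) (A : Subalgebra k L) (hA : A.FG)
    (X : ℕ → Fin 3 → L) (h0 : ∀ m, X m 0 = 1) (hne : ∀ m, form a (X m) ≠ 0)
    (hint : ∀ m (J : Sym (Fin 3) q), mon (X m) J / form a (X m) ∈ A)
    (hline : ∀ w : Fin 3 → L, w ≠ 0 → {m | dt w (X m) = 0}.Finite) :
    ∃ V : Submodule k L, FiniteDimensional k V ∧
      {m : ℕ | ∃ G : L, G ≠ 0 ∧ ∀ l, G * X m l ∈ V}.Infinite := by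
  classical
  obtain ⟨Ω, instΩ, Q, hsurj, hker⟩ := ul_exists L
  have hQ : IsUl Q := ⟨hsurj, hker⟩
  let algLΩ : Algebra L Ω := (Q.comp (Pi.constRingHom ℕ L)).toAlgebra
  have : CharZero Ω := charZero_of_injective_algebraMap (algebraMap L Ω).injective
  have halgL : ∀ b : L, algebraMap L Ω b = Q fun _ => b := fun _ => rfl
  set x : Fin 3 → Ω := fun l => Q fun m => X m l with hx
  have hfr := ul_lframe hQ a hind hfin D hD hDk A hA X hne hint
  have hx0 : x 0 = 1 := by
    rw [hx]
    simp only [h0]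
    exact map_one Q
  have hxF : form (fun J => Q fun _ => a J) x ≠ 0 := by
    rw [hx, ← ul_Q_form]
    exact bf_ne hQ _ (Filter.Eventually.of_forall hne)
  have hpt : PtL (fun J => ulDer Q hQ.surj hQ.ker (D J)) (fun J => Q fun _ => a J) (BF k hQ) x :=
    ⟨hq, hfr, hx0, hxF⟩
  have hLn := hC Ω _ _ _ x hpt (fun c hc => const_BF hQ a hind hfin D hD hDk c hc)
  rcases ln_param hfr.mem hx0 hxF hLn with h1 |
    ⟨u, v, lam, z, b, b', hu, hv, hpi, htop, hlam, -, hxuv⟩
  · exact bdd_inf hQ X h1
  by_cases hr : ∀ h : Polynomial Ω, (∀ n, h.coeff n ∈ BF k hQ) → h.Monic → h.Separable →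
      h ∣ lf (fun J => Q fun _ => a J) u v → (∃ n, lf (fun J => Q fun _ => a J) u v ∣ h ^ n) →
      3 ≤ h.natDegree
  · have hz := mason_line hQ a (by omega) a D (dirs_a a hind hfin D hD hDk) A hA X hne hint u v hu
      hv b b' hpi htop lam z hlam hxuv hr
    have h2 : lam ∈ BF k hQ := by
      have h3 : lam * (u 0 + z * v 0) = 1 := by rw [← hxuv 0, hx0]
      rw [eq_inv_of_mul_eq_one_left h3]
      exact inv_mem (add_mem (hu 0) (mul_mem hz (hv 0)))
    refine bdd_inf hQ X fun l => ?_
    have h4 := hxuv l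
    show x l ∈ _
    rw [h4]
    exact mul_mem h2 (add_mem (hu l) (mul_mem hz (hv l)))
  -- the line is defined over `L`
  exfalso
  push Not at hr
  obtain ⟨h, -, hmon, hsep, hdvd, ⟨n, hn⟩, hdeg⟩ := hr
  set w : Fin 3 → Fin 3 → Ω := fun j l => u j * v l - u l * v j with hw
  have hw0 : w b b' ≠ 0 := hpi
  have hrho : ∀ j l, ∃ c : L, algebraMap L Ω c = w j l / w b b' := by
    intro j l
    refine ultra_const hQ halgL _ ?_
    by_contra hnalg
    obtain ⟨δ, hδB, hδ⟩ := Pool.Agent.Helper6.QS.exists_der (algebraMap L Ω).fieldRange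
      (w j l / w b b') (fun hal => hnalg (by
        obtain ⟨p, hp0, hp⟩ := hal
        have hsur : Function.Surjective (algebraMap L Ω).rangeRestrictField := by
          rintro ⟨_, c, rfl⟩
          exact ⟨c, rfl⟩
        obtain ⟨p', rfl⟩ := Polynomial.map_surjective _ hsur p
        refine ⟨p', ?_, ?_⟩
        · rintro rfl
          exact hp0 (Polynomial.map_zero _)
        · rw [Polynomial.aeval_def, Polynomial.eval₂_map] at hp
          exact hp))
    obtain ⟨c, hc⟩ := bad_line hq (fun J => Q fun _ => a J)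
      (fun J => ulDer Q hQ.surj hQ.ker (D J)) hfr.dual u v b b' hpi htop h hmon.ne_zero n hn hdeg δ
      (fun J => hδB _ ⟨a J, rfl⟩)
    have h5 : w b b' * δ (w j l) = w j l * δ (w b b') := by
      show w b b' * δ (u j * v l - u l * v j) = w j l * δ (u b * v b' - u b' * v b)
      rw [hc j l, hc b b']
      show w b b' * (c * w j l) = w j l * (c * w b b')
      ring
    apply hδ
    have h6 : w j l = (w j l / w b b') * w b b' := by field_simp
    have h7 : δ (w j l) = (w j l / w b b') * δ (w b b') + w b b' * δ (w j l / w b b') := by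
      conv_lhs => rw [h6]
      rw [δ.leibniz]
      simp only [smul_eq_mul]
    have h8 : w b b' * w b b' * δ (w j l / w b b') = 0 := by
      have h9 : w b b' * ((w j l / w b b') * δ (w b b')) = w j l * δ (w b b') := by field_simp
      rw [h7] at h5
      linear_combination h5 - h9
    rcases mul_eq_zero.1 h8 with h10 | h10
    · exact absurd (mul_self_eq_zero.1 h10) hw0
    · exact h10
  choose c hc using hrho
  set c' : Fin 3 → L := ![c 1 2, c 2 0, c 0 1] with hc'
  have hcne : c' ≠ 0 := by
    intro h0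
    have e0 : c 1 2 = 0 := congrFun h0 0
    have e1 : c 2 0 = 0 := congrFun h0 1
    have e2 : c 0 1 = 0 := congrFun h0 2
    have f0 : w 1 2 = 0 := by
      have := hc 1 2
      rw [e0, map_zero] at this
      exact (div_eq_zero_iff.1 this.symm).resolve_right hw0
    have f1 : w 2 0 = 0 := by
      have := hc 2 0
      rw [e1, map_zero] at this
      exact (div_eq_zero_iff.1 this.symm).resolve_right hw0
    have f2 : w 0 1 = 0 := by
      have := hc 0 1
      rw [e2, map_zero] at this
      exact (div_eq_zero_iff.1 this.symm).resolve_right hw0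
    have g0 : ∀ j, w j j = 0 := fun j => sub_self _
    have g1 : ∀ j l, w j l = - w l j := by
      intro j l
      show u j * v l - u l * v j = - (u l * v j - u j * v l)
      ring
    apply hw0
    clear hc hc' hpi hw0
    fin_cases b <;> fin_cases b' <;>
      first
        | exact g0 _
        | exact f0
        | exact f1
        | exact f2
        | (rw [g1]; exact neg_eq_zero.2 f0)
        | (rw [g1]; exact neg_eq_zero.2 f1)
        | (rw [g1]; exact neg_eq_zero.2 f2)
  have hdt : (Q fun m => dt c' (X m)) = 0 := by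
    have h11 : (fun m => dt c' (X m)) = ∑ i, (fun _ : ℕ => c' i) * fun m => X m i := by
      funext m
      rw [Finset.sum_apply]
      rfl
    rw [h11, map_sum]
    have h12 : ∀ i, Q ((fun _ : ℕ => c' i) * fun m => X m i) = algebraMap L Ω (c' i) * x i := by
      intro i
      rw [map_mul]
      rfl
    rw [Finset.sum_congr rfl fun i _ => h12 i, Fin.sum_univ_three]
    show algebraMap L Ω (c 1 2) * x 0 + algebraMap L Ω (c 2 0) * x 1 +
      algebraMap L Ω (c 0 1) * x 2 = 0
    rw [hc, hc, hc, hxuv 0, hxuv 1, hxuv 2]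
    have h13 : w 1 2 * (u 0 + z * v 0) + w 2 0 * (u 1 + z * v 1) + w 0 1 * (u 2 + z * v 2) = 0 := by
      show (u 1 * v 2 - u 2 * v 1) * (u 0 + z * v 0) + (u 2 * v 0 - u 0 * v 2) * (u 1 + z * v 1) +
        (u 0 * v 1 - u 1 * v 0) * (u 2 + z * v 2) = 0
      ring
    have h14 : w 1 2 / w b b' * (lam * (u 0 + z * v 0)) + w 2 0 / w b b' * (lam * (u 1 + z * v 1)) +
        w 0 1 / w b b' * (lam * (u 2 + z * v 2)) = lam / w b b' *
        (w 1 2 * (u 0 + z * v 0) + w 2 0 * (u 1 + z * v 1) + w 0 1 * (u 2 + z * v 2)) := by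
      ring
    rw [h14, h13, mul_zero]
  rw [hQ.ker] at hdt
  exact (hline c' hcne).notMem_hyperfilter hdt

end Pool.Agent.Helper10.PQ
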