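import Pool.Agent.Helper74.PQ.Defs
import Pool.Agent.Helper74.LN.RigidP
import Pool.Agent.Helper8.LG.Poly

/-!
# PQ-STAGETWOL: rigidity: a bounded integral point lies on a conic over `L`

The frame: `B` = the image of `L` (everything algebraic over `L` is in `L`); `rat` is `rp_alg`
(`Helper74/LN/RigidP.lean`, `ι = Unit`, `Z = ∅`, `θ` = the elements of the finite set).
-/

set_option autoImplicit false

namespace Pool.Agent.Helper10.PQ

open scoped BigOperators
open MvPolynomial
open Pool.Agent.Helper8.LG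
open Pool.Agent.Helper6.QS
open Pool.Agent.Helper74.PQ

universe u v w

/-- the value of a homogeneous polynomial in terms of its coefficients -/
theorem form_of_hom {E : Type*} [Field E] {n : ℕ} (F : MvPolynomial (Fin 3) E)
    (hF : F.IsHomogeneous n) (x : Fin 3 → E) : form (cf n F) x = eval x F :=
  form_cf (N := 2) F hF x

theorem stage_two_l {q : ℕ} (hq : q = 4) (hK : KeyD.{u} q) {k : Type v} {L : Type w} {E : Type u}
    [Field k] [Field L] [Field E] [CharZero E] [Algebra k L] [Algebra L E] [Algebra k E]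
    [IsScalarTower k L E] {n : ℕ} (c : Fin n → E)
    (hgen : IntermediateField.adjoin L (Set.range c) = ⊤) (Bs : Set (Fin n))
    (hB : AlgebraicIndependent L (fun b : Bs => c b))
    (halg : ∀ r, IsAlgebraic (IntermediateField.adjoin k (c '' Bs)) (c r))
    (hLE : ∀ z : E, IsAlgebraic L z → ∃ b : L, algebraMap L E b = z)
    (a : Sym (Fin 3) q → L) (D : Sym (Fin 3) q → Derivation ℤ E E)
    (hD : ∀ I J, D J (algebraMap L E (a I)) = if I = J then 1 else 0)
    (hDL : ∀ p b, ∃ b', D p (algebraMap L E b) = algebraMap L E b')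
    (hDk : ∀ p (b : k), D p (algebraMap k E b) = 0) (hDc : ∀ p r, D p (c r) = 0)
    (x : Fin 3 → E) (hx : x 0 = 1) (hF : form (fun J => algebraMap L E (a J)) x ≠ 0)
    (hint : ∀ J : Sym (Fin 3) q,
      mon x J / form (fun J => algebraMap L E (a J)) x ∈ Algebra.adjoin L (Set.range c)) :
    ∃ s : Sym (Fin 3) 2 → L, s ≠ 0 ∧ form (fun J => algebraMap L E (s J)) x = 0 := by
  classical
  have hfr : LFrame D (fun J => algebraMap L E (a J)) (algebraMap L E).fieldRange x := by
    refine ⟨hD, fun J => ⟨a J, rfl⟩, fun s hs y M hM => ?_⟩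
    have hs' : ∀ b : s, ∃ b' : L, algebraMap L E b' = b := fun b => hs b b.2
    choose θ hθ using hs'
    obtain ⟨b, hb⟩ := hLE y (Pool.Agent.Helper74.LN.rp_alg (k := k) c hgen Bs hB halg (ι := Unit) (fun _ => q)
      (fun (_ : Unit) (J : Sym (Fin 3) q) => a J) D (fun (j : s) (_ : Sym (Fin 3) q) => θ j) hDL hDk
      hDc ∅ x (fun _ _ => hF) (fun _ _ J => hint J) M y fun O Δ h1 h2 h3 =>
        hM O Δ h1 (fun b hb => by
          have h4 := h2 ⟨b, hb⟩ (Sym.replicate q 0)
          rw [hθ ⟨b, hb⟩] at h4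
          exact h4) (h3 () (Finset.notMem_empty _)))
    exact ⟨b, hb⟩
  obtain ⟨Q, hQ, hQ0, hQr, hQx⟩ := hK E D _ _ x ⟨hq, hfr, hx, hF⟩
  have h1 : ∀ J : Sym (Fin 3) 2, ∃ b : L, algebraMap L E b = cf 2 Q J := fun J => hQr _
  choose s hs using h1
  refine ⟨s, ?_, ?_⟩
  · intro h0
    apply hQ0
    ext m
    rw [coeff_zero]
    by_cases hm : m.degree = 2
    · obtain ⟨J, hJ⟩ := poly_exists_sym m hm
      have h2 := hs J
      rw [h0, Pi.zero_apply, map_zero] at h2
      rw [← hJ]
      exact h2.symm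
    · exact hQ.coeff_eq_zero hm
  · have h2 : (fun J => algebraMap L E (s J)) = cf 2 Q := funext hs
    rw [h2, form_of_hom Q hQ, hQx]

end Pool.Agent.Helper10.PQ
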