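import Pool.Agent.Helper74.PQ.Defs
import Pool.Agent.Helper6.QS.UlFrame
import Pool.Agent.Helper49.LV.Rows
import Pool.Agent.Helper10.LB.OmBdd
import Pool.Agent.Helper10.LB.Consts

/-!
# PQ-ULLFRAME: the ultrapower is a frame of an integral point

As `ulFrame_dir`, `ul_frame` (`Helper6/QS/UlFrame.lean`) with `B = BF k hQ`, `ulFrame_denom` replaced
by `bset_common`. In one direction take `Δ` of `dir_rows` (`Helper49/LV/Rows.lean`, `ι = Unit`,
`Z = ∅`, `θ` empty, `S` = the `a_J`, generators of `A`, a basis of `V₀` and `1`): at the chosen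
`O_m` it gives `Bdd` and `RowBdd D Δ O_m (X m) (form a) 1 0` for all `m`; so in the ultraproduct
`RowBdd .. x (form (const a)) 1 0` with the larger `Q (Δ^2 v_m)` (if all `x_l / x_j ∈ O`, then
`X_m l / X_m j ∈ O_m` for almost all `m`; `ul_Q_form`, `ulDer_apply`).
`const_BF`: `const_Ω` and `alg_bdd`.
-/

set_option autoImplicit false

namespace Pool.Agent.Helper10.PQ

open scoped BigOperators
open Pool.Agent.Helper8.LG Pool.Agent.Helper10.LB
open Pool.Agent.Helper74.PQ

/-- the directions -/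
theorem dirs_a {k L : Type*} [Field k] [Field L] [Algebra k L] {σ : Type*} [DecidableEq σ] {q : ℕ}
    (a : Sym σ q → L) (hind : AlgebraicIndependent k a)
    (hfin : FiniteDimensional (IntermediateField.adjoin k (Set.range a)) L)
    (D : Sym σ q → Derivation ℤ L L) (hD : ∀ I J, D J (a I) = if I = J then 1 else 0)
    (hDk : ∀ J (c : k), D J (algebraMap k L c) = 0) : Dirs k a D := by
  refine ⟨hind, hfin, hDk, fun p i => ⟨if i = p then 1 else 0, ?_⟩, fun i => ⟨i, fun j => hD j i⟩⟩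
  rw [hD]
  split_ifs <;> simp

theorem ul_inv' {L Ω : Type*} [Field L] [Field Ω] {Q : (ℕ → L) →+* Ω} (hQ : IsUl Q) (g : ℕ → L) :
    Q (fun m => (g m)⁻¹) = (Q g)⁻¹ := by
  by_cases h : Q g = 0
  · rw [h, inv_zero, hQ.ker]
    filter_upwards [(hQ.ker g).1 h] with m hm
    rw [hm, inv_zero]
  · have h1 : ∀ᶠ m in (Filter.hyperfilter ℕ : Filter ℕ), g m ≠ 0 :=
      Ultrafilter.eventually_not.2 fun h0 => h ((hQ.ker g).2 h0)
    have h2 : Q (fun m => (g m)⁻¹) * Q g = 1 := by
      rw [← map_mul, ← map_one Q, ul_eq Q hQ.ker]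
      filter_upwards [h1] with m hm
      show (g m)⁻¹ * g m = 1
      exact inv_mul_cancel₀ hm
    exact eq_inv_of_mul_eq_one_left h2

theorem ul_div' {L Ω : Type*} [Field L] [Field Ω] {Q : (ℕ → L) →+* Ω} (hQ : IsUl Q)
    (f g : ℕ → L) : Q (fun m => f m / g m) = Q f / Q g := by
  rw [div_eq_mul_inv, ← ul_inv' hQ, ← map_mul]
  congr 1
  funext m
  exact div_eq_mul_inv _ _

private theorem lframe_inv_der {L : Type*} [Field L] (D : Derivation ℤ L L) (f : L) :
    D f⁻¹ = -(f⁻¹ ^ 2) * D f := by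
  have h := Derivation.leibniz_inv D f
  rw [h, smul_eq_mul]

/-- one direction -/
theorem lframe_dir {k L Ω : Type*} [Field k] [Field L] [CharZero L] [Algebra k L] [Field Ω]
    {Q : (ℕ → L) →+* Ω} (hQ : IsUl Q)
    {σ : Type*} [Fintype σ] [DecidableEq σ] {q : ℕ} (a : Sym σ q → L)
    (D : Sym σ q → Derivation ℤ L L)
    (E₀ : Subfield L) (hk : ∀ c : k, algebraMap k L c ∈ E₀) (t : L) (ht : Transcendental E₀ t)
    (hfin : FiniteDimensional (Subfield.closure ((E₀ : Set L) ∪ {t})) L)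
    (hE₀ : ∀ p, ∀ f ∈ E₀, D p f ∈ E₀)
    (hDt : ∀ p, D p t ∈ Subring.closure ((E₀ : Set L) ∪ {t}))
    (A : Subalgebra k L) (hA : A.FG) (X : ℕ → σ → L) (hne : ∀ m, form a (X m) ≠ 0)
    (hint : ∀ m (J : Sym σ q), mon (X m) J / form a (X m) ∈ A)
    (V : Submodule k L) (hV : FiniteDimensional k V) (v : ℕ → L) (hv : ∀ m, v m ∈ V)
    (s : Finset Ω) (F : Ω → ℕ → L) (hF : ∀ b ∈ s, ∀ m, F b m ∈ V)
    (hFb : ∀ b ∈ s, b * Q v = Q (F b)) (Y : ℕ → L) (M : ℕ)
    (h : ∀ (O : ValuationSubring Ω) (Δ : Ω), Bdd (fun p => ulDer Q hQ.surj hQ.ker (D p)) Δ O →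
      (∀ b ∈ s, Δ * b ∈ O) →
      RowBdd (fun p => ulDer Q hQ.surj hQ.ker (D p)) Δ O (fun l => Q fun m => X m l)
        (form fun J => Q fun _ => a J) 1 0 → Δ ^ M * Q Y ∈ O) :
    ∃ Δ : L, Δ ≠ 0 ∧ ∀ᶠ m in (Filter.hyperfilter ℕ : Filter ℕ),
      Δ ^ (2 * M) * (v m ^ M * Y m) ∈ intCl E₀ t := by
  classical
  obtain ⟨T, hT⟩ : V.FG := Module.Finite.iff_fg.1 hV
  obtain ⟨s', hs'⟩ := hA
  set S : Set L := (T : Set L) ∪ ((s' : Set L) ∪ Set.range a) with hS
  have hSfin : S.Finite := T.finite_toSet.union (s'.finite_toSet.union (Set.finite_range _))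
  have hSa : ∀ p : Ix σ (fun _ : Unit => q), (fun (_ : Unit) (J : Sym σ q) => a J) p.1 p.2 ∈ S :=
    fun p => Or.inr (Or.inr ⟨p.2, rfl⟩)
  obtain ⟨Δ, hΔ0, hΔR, hΔS, hrows⟩ :=
    Pool.Agent.Helper49.LV.dir_rows (ι := Unit) (τ := Empty) (fun _ => q)
      (fun (_ : Unit) (J : Sym σ q) => a J) D (fun j => j.elim) ∅ E₀ t ht hfin hE₀ hDt S hSfin hSa
      (fun j => j.elim)
  have hcl : Subring.closure ((E₀ : Set L) ∪ {t}) ≤ intCl E₀ t := by
    intro f hf
    exact isIntegral_algebraMap (R := Subring.closure ((E₀ : Set L) ∪ {t})) (x := ⟨f, hf⟩)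
  have hkR : ∀ c : k, algebraMap k L c ∈ intCl E₀ t := fun c =>
    hcl (Subring.subset_closure (Or.inl (hk c)))
  have hVR : ∀ w ∈ V, Δ * w ∈ intCl E₀ t := by
    intro w hw
    rw [← hT] at hw
    induction hw using Submodule.span_induction with
    | mem w hw => exact hΔS w (Or.inl hw)
    | zero => rw [mul_zero]; exact zero_mem _
    | add u w _ _ hu hw => rw [mul_add]; exact add_mem hu hw
    | smul c w _ hw =>
      rw [Algebra.smul_def, mul_left_comm]
      exact mul_mem (hkR c) hw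
  have hAS : ∀ f ∈ A, f ∈ Subring.closure ((E₀ : Set L) ∪ S) := by
    intro f hf
    rw [← hs'] at hf
    induction hf using Algebra.adjoin_induction with
    | mem x hx => exact Subring.subset_closure (Or.inr (Or.inr (Or.inl hx)))
    | algebraMap c => exact Subring.subset_closure (Or.inl (hk c))
    | add x y _ _ hx hy => exact add_mem hx hy
    | mul x y _ _ hx hy => exact mul_mem hx hy
  have hrow : ∀ (m : ℕ) (O : ValuationSubring L), intCl E₀ t ≤ O.toSubring →
      Bdd D Δ O ∧ RowBdd D Δ O (X m) (form a) 1 0 := by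
    intro m O hO
    obtain ⟨h1, -, h2⟩ := hrows (X m) (fun _ _ => hne m) (fun _ _ J => by
      exact isIntegral_algebraMap (R := Subring.closure ((E₀ : Set L) ∪ S))
        (x := ⟨mon (X m) J / form a (X m), hAS _ (hint m J)⟩)) O hO
    exact ⟨h1, h2 () (Finset.notMem_empty _)⟩
  obtain ⟨hDed, hFrac⟩ := intCl_dedekind E₀ t ht hfin
  refine ⟨Δ, hΔ0, ?_⟩
  by_contra hcon
  have hcon' : ∀ᶠ m in (Filter.hyperfilter ℕ : Filter ℕ),
      Δ ^ (2 * M) * (v m ^ M * Y m) ∉ intCl E₀ t := Ultrafilter.eventually_not.2 hcon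
  have hex : ∀ m, ∃ O : ValuationSubring L, intCl E₀ t ≤ O.toSubring ∧
      (Δ ^ (2 * M) * (v m ^ M * Y m) ∉ intCl E₀ t → Δ ^ (2 * M) * (v m ^ M * Y m) ∉ O) := by
    intro m
    by_cases hm : Δ ^ (2 * M) * (v m ^ M * Y m) ∈ intCl E₀ t
    · exact ⟨⊤, fun _ _ => ValuationSubring.mem_top _, fun h0 => absurd hm h0⟩
    · by_contra h1
      push Not at h1
      refine hm (mem_of (intCl E₀ t) _ fun O hO => ?_)
      exact (h1 O hO).2
  choose Om hOm hOm' using hex
  obtain ⟨O, hO⟩ := Pool.Agent.Helper6.QS.ul_val Q hQ.surj hQ.ker Om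
  have hbdd : ∀ m, Bdd D Δ (Om m) := fun m => (hrow m (Om m) (hOm m)).1
  have hmemΔ : ∀ m, Δ ^ 2 * v m ∈ Om m := by
    intro m
    have h2 : Δ ^ 2 * v m = Δ * (Δ * v m) := by ring
    rw [h2]
    exact hOm m (mul_mem hΔR (hVR _ (hv m)))
  have h1 := h O (Q fun m => Δ ^ 2 * v m) ⟨?_, ?_⟩ ?_ ?_
  · rw [← map_pow, ← map_mul, hO] at h1
    obtain ⟨m, hm, hm'⟩ := (hcon'.and h1).exists
    refine hOm' m hm ?_
    have h2 : (((fun m => Δ ^ 2 * v m) ^ M * Y : ℕ → L)) m = Δ ^ (2 * M) * (v m ^ M * Y m) := by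
      show (Δ ^ 2 * v m) ^ M * Y m = _
      rw [mul_pow, ← pow_mul, mul_assoc]
    rw [← h2]
    exact hm'
  · rw [hO]
    exact Filter.Eventually.of_forall hmemΔ
  · intro p z hz
    obtain ⟨g, rfl⟩ := hQ.surj z
    rw [hO] at hz
    show _ * ulDer Q hQ.surj hQ.ker (D p) (Q g) ∈ O
    rw [ulDer_apply, ← map_mul, hO]
    filter_upwards [hz] with m hm
    have h2 : ((fun m => Δ ^ 2 * v m) * (fun m => D p (g m)) : ℕ → L) m =
        (Δ * v m) * (Δ * D p (g m)) := by
      show (Δ ^ 2 * v m) * D p (g m) = _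
      ring
    rw [h2]
    exact (Om m).mul_mem _ _ (hOm m (hVR _ (hv m))) ((hbdd m).2 p _ hm)
  · intro b hb
    have h2 : (Q fun m => Δ ^ 2 * v m) * b = Q fun m => Δ ^ 2 * F b m := by
      have h3 : (fun m => Δ ^ 2 * v m) = (fun _ => Δ ^ 2) * v := rfl
      have h4 : (fun m => Δ ^ 2 * F b m) = (fun _ => Δ ^ 2) * F b := rfl
      rw [h3, h4, map_mul, map_mul, ← hFb b hb]
      ring
    rw [h2, hO]
    refine Filter.Eventually.of_forall fun m => hOm m ?_
    have h5 : Δ ^ 2 * F b m = Δ * (Δ * F b m) := by ring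
    show Δ ^ 2 * F b m ∈ intCl E₀ t
    rw [h5]
    exact mul_mem hΔR (hVR _ (hF b hb m))
  · intro j hj hprim
    have hdiv : ∀ l, (Q fun m => X m l) / (Q fun m => X m j) = Q fun m => X m l / X m j :=
      fun l => (ul_div' hQ _ _).symm
    have hj' : ∀ᶠ m in (Filter.hyperfilter ℕ : Filter ℕ), X m j ≠ 0 :=
      Ultrafilter.eventually_not.2 fun h0 => hj ((hQ.ker fun m => X m j).2 h0)
    have hprim' : ∀ᶠ m in (Filter.hyperfilter ℕ : Filter ℕ), ∀ l, X m l / X m j ∈ Om m := by
      rw [Filter.eventually_all]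
      intro l
      have h2 : (Q fun m => X m l) / (Q fun m => X m j) ∈ O := hprim l
      rw [hdiv l, hO] at h2
      exact h2
    have hfrm : form (fun J => Q fun _ => a J)
        (fun l => (Q fun m => X m l) / (Q fun m => X m j)) =
        Q fun m => form a (fun l => X m l / X m j) := by
      rw [ul_Q_form Q a (fun m l => X m l / X m j)]
      congr 1
      funext l
      exact hdiv l
    refine ⟨?_, fun p => ?_⟩
    · rw [pow_zero, div_one, mul_one, hO]
      exact Filter.Eventually.of_forall hmemΔ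
    · show (Q fun m => Δ ^ 2 * v m) * (1 / (Q fun m => X m j) ^ 0 *
        (ulDer Q hQ.surj hQ.ker (D p) (form (fun J => Q fun _ => a J)
          (fun l => (Q fun m => X m l) / (Q fun m => X m j))) /
          form (fun J => Q fun _ => a J)
            (fun l => (Q fun m => X m l) / (Q fun m => X m j)))) ∈ O
      rw [hfrm, ulDer_apply, ← ul_div' hQ, pow_zero, div_one, one_mul, ← map_mul, hO]
      filter_upwards [hj', hprim'] with m hm1 hm2
      have h3 := ((hrow m (Om m) (hOm m)).2 j hm1 hm2).2 p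
      rw [pow_zero, div_one, one_mul] at h3
      have h4 : ((fun m => Δ ^ 2 * v m) * (fun m => D p (form a fun l => X m l / X m j) /
          form a fun l => X m l / X m j) : ℕ → L) m =
          (Δ * v m) * (Δ * (D p (form a fun l => X m l / X m j) /
          form a fun l => X m l / X m j)) := by
        show (Δ ^ 2 * v m) * (D p (form a fun l => X m l / X m j) /
          form a fun l => X m l / X m j) = _
        ring
      rw [h4]
      exact (Om m).mul_mem _ _ (hOm m (hVR _ (hv m))) h3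

theorem ul_lframe {k L Ω : Type*} [Field k] [Field L] [CharZero L] [Algebra k L] [Field Ω]
    {Q : (ℕ → L) →+* Ω} (hQ : IsUl Q) {σ : Type*} [Fintype σ] [DecidableEq σ] {q : ℕ}
    (a : Sym σ q → L) (hind : AlgebraicIndependent k a)
    (hfin : FiniteDimensional (IntermediateField.adjoin k (Set.range a)) L)
    (D : Sym σ q → Derivation ℤ L L) (hD : ∀ I J, D J (a I) = if I = J then 1 else 0)
    (hDk : ∀ J (c : k), D J (algebraMap k L c) = 0) (A : Subalgebra k L) (hA : A.FG)
    (X : ℕ → σ → L) (hne : ∀ m, form a (X m) ≠ 0)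
    (hint : ∀ m (J : Sym σ q), mon (X m) J / form a (X m) ∈ A) :
    LFrame (fun J => ulDer Q hQ.surj hQ.ker (D J)) (fun J => Q fun _ => a J) (BF k hQ)
      (fun l => Q fun m => X m l) := by
  classical
  refine ⟨?_, fun J => const_mem hQ (a J), ?_⟩
  · intro I J
    show ulDer Q hQ.surj hQ.ker (D J) (Q fun _ => a I) = _
    rw [ulDer_apply]
    split_ifs with h
    · have h1 : (fun _ : ℕ => D J (a I)) = 1 := by
        funext m
        rw [hD, if_pos h]
        rfl
      rw [h1, map_one]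
    · have h1 : (fun _ : ℕ => D J (a I)) = 0 := by
        funext m
        rw [hD, if_neg h]
        rfl
      rw [h1, map_zero]
  · intro s hs y M h
    obtain ⟨V, hV, nn, v, hnn, hv, hv0, hden⟩ := bset_common (k := k) hQ (fun b : s => (b : Ω))
      (fun b => (mem_BF k hQ _).1 (hs b b.2))
    have hF' : ∀ b : Ω, ∃ f : ℕ → L, b ∈ s → (∀ m, f m ∈ V) ∧ b * Q v = Q f := by
      intro b
      by_cases hb : b ∈ s
      · exact ⟨nn ⟨b, hb⟩, fun _ => ⟨hnn ⟨b, hb⟩, hden ⟨b, hb⟩⟩⟩
      · exact ⟨0, fun h0 => absurd h0 hb⟩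
    choose F hF using hF'
    obtain ⟨Y, rfl⟩ := hQ.surj y
    have htr := others_transcendental (k := k) a hind
    have hof := others_finite (k := k) a hfin
    have hk : ∀ (p : Sym σ q) (c : k), algebraMap k L c ∈ others (k := k) a p := fun p c =>
      IntermediateField.algebraMap_mem _ c
    have hst : ∀ (p J : Sym σ q), ∀ f ∈ others (k := k) a p, D J f ∈ others (k := k) a p := by
      intro p J f hf
      have hf' : f ∈ IntermediateField.adjoin k (a '' {p}ᶜ) := hf
      show D J f ∈ IntermediateField.adjoin k (a '' {p}ᶜ)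
      induction hf' using IntermediateField.adjoin_induction with
      | mem x hx =>
        obtain ⟨r, _, rfl⟩ := hx
        rw [hD]
        split_ifs
        · exact one_mem _
        · exact zero_mem _
      | algebraMap c =>
        rw [hDk J c]
        exact zero_mem _
      | add x y hx hy hx' hy' =>
        rw [map_add]
        exact add_mem (hx' hx) (hy' hy)
      | inv x hx hx' =>
        rw [lframe_inv_der]
        exact mul_mem (neg_mem (pow_mem (inv_mem hx) 2)) (hx' hx)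
      | mul x y hx hy hx' hy' =>
        rw [Derivation.leibniz, smul_eq_mul, smul_eq_mul]
        exact add_mem (mul_mem hx (hy' hy)) (mul_mem hy (hx' hx))
    have hvar : ∀ (p J : Sym σ q) (R : Subring L), D J (a p) ∈ R := by
      intro p J R
      rw [hD]
      split_ifs
      · exact one_mem _
      · exact zero_mem _
    have h1 : ∀ p : Sym σ q, ∃ Δ : L, Δ ≠ 0 ∧ ∀ᶠ m in (Filter.hyperfilter ℕ : Filter ℕ),
        Δ ^ (2 * M) * (v m ^ M * Y m) ∈ intCl (others (k := k) a p) (a p) := fun p =>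
      lframe_dir hQ a D (others (k := k) a p) (hk p) (a p) (htr p).1 (hof p).1
        (fun J => hst p J) (fun J => hvar p J _) A hA X hne hint V hV v hv s F
        (fun b hb => (hF b hb).1) (fun b hb => (hF b hb).2) Y M h
    have h2 : ∀ p : Sym σ q, ∃ Δ : L, Δ ≠ 0 ∧ ∀ᶠ m in (Filter.hyperfilter ℕ : Filter ℕ),
        Δ ^ (2 * M) * (v m ^ M * Y m) ∈ intCl (others (k := k) a p) (a p)⁻¹ := fun p =>
      lframe_dir hQ a D (others (k := k) a p) (hk p) (a p)⁻¹ (htr p).2 (hof p).2
        (fun J => hst p J)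
        (fun J => by
          have hinv : (a p)⁻¹ ∈ Subring.closure
              ((others (k := k) a p : Set L) ∪ {(a p)⁻¹}) :=
            Subring.subset_closure (Or.inr rfl)
          rw [lframe_inv_der]
          exact mul_mem (neg_mem (pow_mem hinv 2)) (hvar p J _))
        A hA X hne hint V hV v hv s F (fun b hb => (hF b hb).1) (fun b hb => (hF b hb).2) Y M h
    choose Δ hΔ0 hΔ using h1
    choose Δ' hΔ0' hΔ' using h2
    obtain ⟨V₁, hV₁, hfd⟩ := fd a hind hfin (fun p => Δ p ^ (2 * M)) (fun p => Δ' p ^ (2 * M))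
      (fun p => pow_ne_zero _ (hΔ0 p)) (fun p => pow_ne_zero _ (hΔ0' p))
    have h3 : ∀ᶠ m in (Filter.hyperfilter ℕ : Filter ℕ), v m ^ M * Y m ∈ V₁ := by
      have h4 := (Filter.eventually_all.2 hΔ).and (Filter.eventually_all.2 hΔ')
      filter_upwards [h4] with m hm
      exact hfd _ fun p => ⟨hm.1 p, hm.2 p⟩
    have hVM : FiniteDimensional k ↥(V ^ M) := bf_fd_pow V M
    rw [mem_BF]
    refine bset_of_fd hQ (V₁ ⊔ V ^ M) (fun m => v m ^ M * Y m) (fun m => v m ^ M) ?_ ?_ ?_ _ ?_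
    · filter_upwards [h3] with m hm
      exact Submodule.mem_sup_left hm
    · exact Filter.Eventually.of_forall fun m =>
        Submodule.mem_sup_right (Submodule.pow_mem_pow V (hv m) M)
    · exact Filter.Eventually.of_forall fun m => pow_ne_zero _ (hv0 m)
    · rw [← map_mul]
      congr 1
      funext m
      show Y m * v m ^ M = _
      rw [mul_comm]

theorem const_BF {k L Ω : Type*} [Field k] [Field L] [CharZero L] [Algebra k L] [Field Ω]
    {Q : (ℕ → L) →+* Ω} (hQ : IsUl Q) {σ : Type*} [Fintype σ] [DecidableEq σ] {q : ℕ}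
    (a : Sym σ q → L) (hind : AlgebraicIndependent k a)
    (hfin : FiniteDimensional (IntermediateField.adjoin k (Set.range a)) L)
    (D : Sym σ q → Derivation ℤ L L) (hD : ∀ I J, D J (a I) = if I = J then 1 else 0)
    (hDk : ∀ J (c : k), D J (algebraMap k L c) = 0) (c : Ω)
    (hc : ∀ J, ulDer Q hQ.surj hQ.ker (D J) c = 0) : c ∈ BF k hQ := by
  have hy := dirs_a a hind hfin D hD hDk
  exact alg_bdd hQ a D hy c (const_Ω hQ a D hy c hc)

end Pool.Agent.Helper10.PQ
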