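import Pool.Agent.Helper10.PQ.CoreL
import Pool.Agent.Helper10.PQ.StageOneL
import Pool.Agent.Helper6.QS.EngQ
import Pool.Agent.Helper10.LB.SecRound

/-!
# PQ-ULTRAL: bounded points on a conic

Copy of `ultra_q` (`Helper6/QS/EngQ.lean`) with `core_l`.
-/

set_option autoImplicit false

namespace Pool.Agent.Helper10.PQ

open scoped BigOperators
open MvPolynomial
open Pool.Agent.Helper8.LG Pool.Agent.Helper10.LB
open Pool.Agent.Helper74.PQ
open Pool.Agent.Helper6.QS

universe u v

theorem ultra_l {q : ℕ} (hq : q = 4) (hK : KeyD.{u} q) {k : Type v} {L : Type u} [Field k]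
    [Field L] [CharZero L] [Algebra k L] (a : Sym (Fin 3) q → L)
    (D : Sym (Fin 3) q → Derivation ℤ L L) (hD : ∀ I J, D J (a I) = if I = J then 1 else 0)
    (hDk : ∀ J (c : k), D J (algebraMap k L c) = 0) (V : Submodule k L) [FiniteDimensional k V]
    (X : ℕ → Fin 3 → L) (hX0 : ∀ m, X m 0 = 1) (hXF : ∀ m, form a (X m) ≠ 0) (G : ℕ → L)
    (hG0 : ∀ m, G m ≠ 0) (hGx : ∀ m l, G m * X m l ∈ V)
    (hint : ∀ m (J : Sym (Fin 3) q), mon (X m) J / form a (X m) ∈ V) :
    ∃ s : Sym (Fin 3) 2 → L, s ≠ 0 ∧ {m | form s (X m) = 0}.Infinite := by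
  classical
  obtain ⟨Ω, instΩ, Q, hQ, hker⟩ := ul_exists L
  have hUl : IsUl Q := ⟨hQ, hker⟩
  let algLΩ : Algebra L Ω := (Q.comp (Pi.constRingHom ℕ L)).toAlgebra
  let algkΩ : Algebra k Ω := ((algebraMap L Ω).comp (algebraMap k L)).toAlgebra
  have : IsScalarTower k L Ω := IsScalarTower.of_algebraMap_eq fun _ => rfl
  have : CharZero Ω := charZero_of_injective_algebraMap (algebraMap L Ω).injective
  have halgL : ∀ b : L, algebraMap L Ω b = Q fun _ => b := fun _ => rfl
  have halgk : ∀ b : k, algebraMap k Ω b = Q fun _ => algebraMap k L b := fun _ => rfl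
  -- the constants
  set K : Subring Ω := (Q.comp ((algebraMap k L).compLeft ℕ)).range with hKdef
  have hQK : ∀ g : ℕ → k, Q (fun m => algebraMap k L (g m)) ∈ K := fun g => ⟨g, rfl⟩
  have hLD : UlDisj k (L := L) K := by
    intro J hJ T z hz hsum
    choose g hg using hz
    have hg' : ∀ b, Q (fun m => algebraMap k L (g b m)) = z b := fun b => hg b
    have h1 := ul_disj Q hker J hJ T g (by
      rw [← hsum]
      exact Finset.sum_congr rfl fun b _ => by rw [hg', halgL])
    intro b hb
    rw [← hg']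
    exact h1 b hb
  -- the sequences
  set bV := Module.finBasis k V with hbV
  set r := Module.finrank k V with hr
  set h : Fin 3 ⊕ Sym (Fin 3) q → ℕ → L := fun l m' =>
    Sum.elim (fun l => G m' * X m' l) (fun J => mon (X m') J / form a (X m')) l with hh
  have hhV : ∀ l m', h l m' ∈ V := by
    rintro (l | J) m'
    · exact hGx m' l
    · exact hint m' J
  set c₀ : (Fin 3 ⊕ Sym (Fin 3) q) × Fin r → Ω := fun ηj => Q fun m' =>
    algebraMap k L (bV.repr ⟨h ηj.1 m', hhV ηj.1 m'⟩ ηj.2) with hc₀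
  set eqv := (Fintype.equivFin ((Fin 3 ⊕ Sym (Fin 3) q) × Fin r)).symm with heqv
  set c : Fin (Fintype.card ((Fin 3 ⊕ Sym (Fin 3) q) × Fin r)) → Ω := fun s => c₀ (eqv s) with hc
  have hcmem : ∀ ηj, c₀ ηj ∈ Algebra.adjoin L (Set.range c) := fun ηj =>
    Algebra.subset_adjoin ⟨eqv.symm ηj, by rw [hc]; simp⟩
  have hhc : ∀ l, Q (h l) ∈ Algebra.adjoin L (Set.range c) := by
    intro l
    have h1 : Q (h l) = ∑ j, algebraMap L Ω (bV j : L) * c₀ (l, j) := by
      have h2 : h l = ∑ j, (fun _ => (bV j : L)) *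
          (fun m' => algebraMap k L (bV.repr ⟨h l m', hhV l m'⟩ j)) := by
        funext m'
        rw [Finset.sum_apply]
        have h3 := congrArg (Subtype.val : V → L) (bV.sum_repr ⟨h l m', hhV l m'⟩)
        rw [Submodule.coe_sum] at h3
        have h4 : ((⟨h l m', hhV l m'⟩ : V) : L) = h l m' := rfl
        rw [h4] at h3
        rw [← h3]
        refine Finset.sum_congr rfl fun j _ => ?_
        show _ = (bV j : L) * algebraMap k L (bV.repr ⟨h l m', hhV l m'⟩ j)
        rw [Submodule.coe_smul, Algebra.smul_def, mul_comm]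
      conv_lhs => rw [h2]
      rw [map_sum]
      exact Finset.sum_congr rfl fun j _ => by rw [map_mul]; rfl
    rw [h1]
    exact sum_mem fun j _ => mul_mem (Subalgebra.algebraMap_mem _ _) (hcmem _)
  -- the core
  have hform : form (fun J => algebraMap L Ω (a J)) (fun l => Q fun m' => X m' l) =
      Q fun m' => form a (X m') := (ul_Q_form Q a X).symm
  have hFne : form (fun J => algebraMap L Ω (a J)) (fun l => Q fun m' => X m' l) ≠ 0 := by
    rw [hform]
    exact bf_ne hUl _ (Filter.Eventually.of_forall hXF)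
  have hmon : ∀ J : Sym (Fin 3) q, mon (fun l => Q fun m' => X m' l) J =
      Q fun m' => mon (X m') J := by
    intro J
    have h1 := ul_map_mon Q (fun l => fun m' => X m' l) J
    rw [← h1]
    congr 1
    funext m'
    exact (ul_map_mon (Pi.evalRingHom (fun _ : ℕ => L) m') (fun l => fun m' => X m' l) J)
  obtain ⟨s, hs0, hs⟩ := core_l hq hK (k := k) (L := L) K
    (fun b => by rw [halgk]; exact hQK fun _ => b)
    hLD c (fun s => hQK _) (fun z hz => ultra_const hUl halgL z hz) a
    (fun p => ulDer Q hQ hker (D p))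
    (fun I J => by
      show ulDer Q hQ hker (D J) (Q fun _ => a I) = _
      rw [ulDer_apply]
      have h2 : (Q fun _ => D J (a I)) = algebraMap L Ω (D J (a I)) := rfl
      rw [h2, hD I J]
      split_ifs
      · rw [map_one]
      · rw [map_zero])
    (fun p b => ⟨D p b, ulDer_apply Q hQ hker (D p) _⟩)
    (fun p b => by
      rw [halgk, ulDer_apply]
      rw [hker]
      exact Filter.Eventually.of_forall fun m' => hDk p b)
    (fun p s => by
      show ulDer Q hQ hker (D p) (Q _) = 0
      rw [ulDer_apply, hker]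
      exact Filter.Eventually.of_forall fun m' => hDk p _)
    (fun l => Q fun m' => X m' l)
    (by
      show Q (fun m' => X m' 0) = 1
      have h1 : (fun m' => X m' 0) = 1 := by
        funext m'
        exact hX0 m'
      rw [h1, map_one])
    (Q G)
    (by
      intro h0
      rw [hker] at h0
      obtain ⟨m', hm'⟩ := h0.exists
      exact hG0 m' hm')
    (fun l => by
      show Q G * Q (fun m' => X m' l) ∈ _
      rw [← map_mul]
      exact hhc (Sum.inl l))
    hFne
    (fun J => by
      rw [hmon, hform, ← ul_div' hUl]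
      exact hhc (Sum.inr J))
  refine ⟨s, hs0, ?_⟩
  have h1 : (Q fun m' => form s (X m')) = 0 := by
    rw [ul_Q_form]
    exact hs
  rw [hker] at h1
  intro hfin
  exact hfin.notMem_hyperfilter h1

/-- **The engine**: a sequence of integral points with finitely many members on each conic does not
exist. -/
theorem eng_l {q : ℕ} (hq : q = 4) (hC : KeyC.{u} q) (hK : KeyD.{u} q) {k : Type v} {L : Type u}
    [Field k] [Field L] [CharZero L] [Algebra k L] (a : Sym (Fin 3) q → L)
    (hind : AlgebraicIndependent k a)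
    (hfin : FiniteDimensional (IntermediateField.adjoin k (Set.range a)) L)
    (D : Sym (Fin 3) q → Derivation ℤ L L) (hD : ∀ I J, D J (a I) = if I = J then 1 else 0)
    (hDk : ∀ J (c : k), D J (algebraMap k L c) = 0) (A : Subalgebra k L) (hA : A.FG)
    (X : ℕ → Fin 3 → L) (h0 : ∀ m, X m 0 = 1) (hne : ∀ m, form a (X m) ≠ 0)
    (hint : ∀ m (J : Sym (Fin 3) q), mon (X m) J / form a (X m) ∈ A)
    (hline : ∀ w : Fin 3 → L, w ≠ 0 → {m | dt w (X m) = 0}.Finite)
    (hcon : ∀ s : Sym (Fin 3) 2 → L, s ≠ 0 → {m | form s (X m) = 0}.Finite) : False := by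
  classical
  obtain ⟨V, hV, hinf⟩ := stage_one_l hq hC a hind hfin D hD hDk A hA X h0 hne hint hline
  obtain ⟨V', hV', h'⟩ := second_round a D (dirs_a a hind hfin D hD hDk) (ι := Unit)
    (fun _ => a) ∅ A hA V
  set S := {m : ℕ | ∃ G : L, G ≠ 0 ∧ ∀ l, G * X m l ∈ V} with hS
  set e : ℕ → ℕ := fun m => (hinf.natEmbedding S m : ℕ) with he
  have heS : ∀ m, e m ∈ S := fun m => (hinf.natEmbedding S m).2
  have hei : Function.Injective e := fun m m' h =>
    (hinf.natEmbedding S).injective (Subtype.ext h)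
  choose G hG hGx using heS
  obtain ⟨s, hs, hsinf⟩ := ultra_l hq hK a D hD hDk (V ⊔ V') (fun m => X (e m))
    (fun m => h0 _) (fun m => hne _) G hG
    (fun m l => (le_sup_left : V ≤ V ⊔ V') (hGx m l))
    (fun m J => (le_sup_right : V' ≤ V ⊔ V') (h' (X (e m)) (G m)
      ⟨fun i hi => absurd hi (Finset.notMem_empty _), fun _ _ => hne _, fun _ _ J =>
        isIntegral_algebraMap (R := A.toSubring) (x := ⟨_, hint _ J⟩)⟩
      (hG m) (hGx m) () (Finset.notMem_empty _) J))
  apply hsinf
  exact (hcon s hs).preimage hei.injOn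

end Pool.Agent.Helper10.PQ
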